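import Pool.Agent.Helper4.CI.Goals
import Pool.Agent.Helper20.Mono.Crd

/-!
# Packet V5: the coefficient of a face through simplices
-/

namespace Mono.CI.V5

open Finset Mono Mono.CI

variable {N k n : ℕ}

theorem ind_inj {c c' : Option (Fin k)} (h : ind c = ind c') : c = c' := by
  cases c with
  | none =>
    cases c' with
    | none => rfl
    | some j =>
      have h1 := congrFun h j
      simp [ind] at h1
  | some i =>
    have h1 := congrFun h i
    simp only [ind, if_true] at h1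
    by_contra h2
    rw [if_neg (fun h3 => h2 h3.symm)] at h1
    exact absurd h1 one_ne_zero

theorem lift_nat (c : Option (Fin k)) (u : Fin N → ℤ) (j : Fin k) :
    lift c u (Fin.natAdd N j) = ind c j := by
  simp [lift]

theorem base_lift (c : Option (Fin k)) (u : Fin N → ℤ) : base (lift c u) = u := by
  funext i
  simp [base, lift]

theorem colour_eq {c c' : Option (Fin k)} {u : Fin N → ℤ}
    (h : ∀ j, lift c u (Fin.natAdd N j) = ind c' j) : c = c' := by
  apply ind_inj
  funext j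
  rw [← lift_nat c u j, h j]

theorem mem_cay {φ : Option (Fin k) → Finset (Fin N → ℤ)} {C : Finset (Option (Fin k))}
    {v : Fin (N + k) → ℤ} : v ∈ cay φ C ↔ ∃ c ∈ C, ∃ u ∈ φ c, lift c u = v := by
  simp only [cay, Finset.mem_biUnion, Finset.mem_image]

theorem cols_sub {φ : Option (Fin k) → Finset (Fin N → ℤ)} {C : Finset (Option (Fin k))}
    {ρ : Finset (Fin (N + k) → ℤ)} (h : ρ ⊆ cay φ C) : cols ρ ⊆ C := by
  intro c hc
  simp only [cols, Finset.mem_filter, Finset.mem_univ, true_and] at hc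
  obtain ⟨v, hv, hj⟩ := hc
  obtain ⟨c', hc', u, _, rfl⟩ := mem_cay.1 (h hv)
  rw [← colour_eq hj]
  exact hc'

theorem sub_cay {φ : Option (Fin k) → Finset (Fin N → ℤ)} {C : Finset (Option (Fin k))}
    {ρ : Finset (Fin (N + k) → ℤ)} (h : ρ ⊆ cay φ univ) (hC : cols ρ ⊆ C) : ρ ⊆ cay φ C := by
  intro v hv
  obtain ⟨c, _, u, hu, rfl⟩ := mem_cay.1 (h hv)
  refine mem_cay.2 ⟨c, hC ?_, u, hu, rfl⟩
  simp only [cols, Finset.mem_filter, Finset.mem_univ, true_and]
  exact ⟨_, hv, fun j => lift_nat c u j⟩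

theorem cay_mono {φ ψ : Option (Fin k) → Finset (Fin N → ℤ)} {C D : Finset (Option (Fin k))}
    (h : ∀ c, φ c ⊆ ψ c) (hC : C ⊆ D) : cay φ C ⊆ cay ψ D := by
  intro v hv
  obtain ⟨c, hc, u, hu, rfl⟩ := mem_cay.1 hv
  exact mem_cay.2 ⟨c, hC hc, u, h c hu, rfl⟩

theorem coll_sub {φ : Option (Fin k) → Finset (Fin N → ℤ)}
    {ρ : Finset (Fin (N + k) → ℤ)} (h : ρ ⊆ cay φ univ) (c : Option (Fin k)) :
    coll ρ c ⊆ φ c := by
  intro x hx
  simp only [coll, Finset.mem_image, Finset.mem_filter] at hx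
  obtain ⟨v, ⟨hv, hj⟩, rfl⟩ := hx
  obtain ⟨c', _, u, hu, rfl⟩ := mem_cay.1 (h hv)
  rw [base_lift, ← colour_eq hj]
  exact hu

theorem dimC_mono {φ ψ : Option (Fin k) → Finset (Fin N → ℤ)} (h : ∀ c, φ c ⊆ ψ c) :
    dimC φ ≤ dimC ψ := by
  unfold dimC
  apply Submodule.finrank_mono
  apply Submodule.span_mono
  rintro x ⟨c, u, hu, v, hv, rfl⟩
  exact ⟨c, u, h c hu, v, h c hv, rfl⟩

theorem indep_sub {F τ : Finset (Fin n → ℤ)} (hF : Indep F) (h : τ ⊆ F) : Indep τ := by
  unfold Indep at *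
  exact hF.comp (fun u : τ => (⟨u.1, h u.2⟩ : F)) (fun u v huv => by
    apply Subtype.ext
    exact congrArg (fun z : F => (z : Fin n → ℤ)) huv)

theorem indep_face {Φ : Fan n} {τ : Finset (Fin n → ℤ)} (h : τ ∈ Φ.faces) : Indep τ := by
  simp only [Fan.faces, Finset.mem_biUnion, Finset.mem_powerset] at h
  obtain ⟨F, hF, hτ⟩ := h
  exact indep_sub (Φ.mx_indep F hF) hτ

theorem projS_empty (A : Finset (Fin n → ℤ)) : projS ∅ A = A := by
  unfold projS
  simp

theorem prC_empty (φ : Option (Fin k) → Finset (Fin N → ℤ)) : prC ∅ φ = φ := by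
  funext c
  exact projS_empty (φ c)

theorem eK_empty : eK (Kh (N := N) k ∅) = ∅ := by
  simp [eK, Kh]

/-- The volume of a Cayley polytope of a face. -/
theorem volC_eq (h3 : CellVolC) (hD : CardColl) (hS : ScaleRel) (h6 : CellsEmptyC)
    (h5 : VolScale) (A : Option (Fin k) → Finset (Fin N → ℤ)) (b : Fin N → ℝ)
    (L : ℕ) (b' : Fin (N + k) → ℝ) (Z : Finset (Fin (N + k) → ℤ)) (Φ' Φ : Fan (N + k))
    (hT : TriC A b L b' Z Φ' Φ) (hb : ∀ i, 0 < b i)
    (φ : Option (Fin k) → Finset (Fin N → ℤ)) (hφ : φ ∈ cfacesC A)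
    (C : Finset (Option (Fin k))) :
    volC φ C = ∑ ρ ∈ Φ.faces.filter (fun ρ => (ρ ⊆ cay φ univ ∧
      ρ.card = dimC φ + (cols ρ).card) ∧ cols ρ = C), (vol ρ : ℤ) := by
  classical
  have hφA : ∀ c, φ c ⊆ A c := by
    intro c
    simp only [cfacesC, Finset.mem_filter, Fintype.mem_piFinset, Finset.mem_powerset] at hφ
    exact hφ.1 c
  have hcell : φ ∈ cellsC A ∅ b := by
    rw [(h6 N k A b hT.good hb).1]
    exact hφ
  have hdisj : Disjoint (cay A univ) Z := (hS N k A b L b' Z Φ' Φ hT).2.2.2.2.1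
  have hsubA : ∀ ρ : Finset (Fin (N + k) → ℤ), ∀ C : Finset (Option (Fin k)),
      ρ ⊆ cay φ C → ρ ⊆ cay A univ := fun ρ C h =>
    h.trans (cay_mono hφA (Finset.subset_univ _))
  have h := h3 N k A b L b' Z Φ' Φ hT ∅ φ hcell C
  rw [prC_empty, eK_empty] at h
  rw [h]
  have hset : Φ.faces.filter (fun ρ => ρ ∩ Z = ∅ ∧ ρ \ Z ⊆ cay φ C ∧
      (ρ \ Z).card = dimC φ + C.card) = Φ.faces.filter (fun ρ => (ρ ⊆ cay φ univ ∧
      ρ.card = dimC φ + (cols ρ).card) ∧ cols ρ = C) := by
    apply Finset.filter_congr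
    intro ρ hρ
    constructor
    · rintro ⟨h1, h2, h4⟩
      have hd : Disjoint ρ Z := Finset.disjoint_iff_inter_eq_empty.2 h1
      rw [Finset.sdiff_eq_self_of_disjoint hd] at h2 h4
      have huniv : ρ ⊆ cay φ univ := h2.trans (cay_mono (fun c => subset_rfl)
        (Finset.subset_univ _))
      have hle : ρ.card ≤ dimC φ + (cols ρ).card := by
        refine le_trans (hD N k ρ (indep_face hρ) ?_) ?_
        · intro v hv
          obtain ⟨c, _, u, _, rfl⟩ := mem_cay.1 (huniv hv)
          exact ⟨c, u, rfl⟩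
        · exact Nat.add_le_add_right (dimC_mono (coll_sub huniv)) _
      have hC : cols ρ = C := by
        apply Finset.eq_of_subset_of_card_le (cols_sub h2)
        omega
      refine ⟨⟨huniv, ?_⟩, hC⟩
      rw [hC]
      exact h4
    · rintro ⟨⟨h1, h2⟩, h4⟩
      have hd : Disjoint ρ Z := Finset.disjoint_of_subset_left (hsubA ρ _ h1) hdisj
      rw [Finset.sdiff_eq_self_of_disjoint hd]
      refine ⟨Finset.disjoint_iff_inter_eq_empty.1 hd, sub_cay h1 h4.le, ?_⟩
      rw [← h4]
      exact h2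
  rw [hset]
  apply Finset.sum_congr rfl
  intro ρ hρ
  simp only [Finset.mem_filter] at hρ
  rw [(h5 N k A b L b' Z Φ' Φ hT ρ hρ.1 (hsubA ρ _ hρ.2.1.1)).1]

theorem coefSum (h3 : CellVolC) (hD : CardColl) (hS : ScaleRel) (h6 : CellsEmptyC)
    (h5 : VolScale) : CoefSum := by
  classical
  intro N k A b L b' Z Φ' Φ hT hb φ hφ s w
  have hvol := volC_eq h3 hD hS h6 h5 A b L b' Z Φ' Φ hT hb φ hφ
  -- the colours of `ρ` other than `none`
  set Js : Finset (Fin (N + k) → ℤ) → Finset (Fin k) :=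
    fun ρ => univ.filter (fun j => some j ∈ cols ρ) with hJs
  set R : Finset (Finset (Fin (N + k) → ℤ)) := Φ.faces.filter (fun ρ => ρ ⊆ cay φ univ ∧
    ρ.card = dimC φ + (cols ρ).card) with hR
  have hcols0 : ∀ (ρ : Finset (Fin (N + k) → ℤ)) (J : Finset (Fin k)),
      cols ρ = J.image some ↔ (¬ none ∈ cols ρ ∧ Js ρ = J) := by
    intro ρ J
    constructor
    · intro h
      refine ⟨?_, ?_⟩
      · rw [h]
        simp
      · ext j
        simp [hJs, h]
    · rintro ⟨h1, h2⟩
      ext c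
      cases c with
      | none => simp [h1]
      | some j =>
        rw [← h2]
        simp [hJs]
  have hcols1 : ∀ (ρ : Finset (Fin (N + k) → ℤ)) (J : Finset (Fin k)),
      cols ρ = insert none (J.image some) ↔ (none ∈ cols ρ ∧ Js ρ = J) := by
    intro ρ J
    constructor
    · intro h
      refine ⟨?_, ?_⟩
      · rw [h]
        simp
      · ext j
        simp [hJs, h]
    · rintro ⟨h1, h2⟩
      ext c
      cases c with
      | none => simp [h1]
      | some j =>
        rw [← h2]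
        simp [hJs]
  rw [← Finset.sum_filter_add_sum_filter_not R (fun ρ => none ∈ cols ρ), add_comm]
  congr 1
  rotate_left
  · -- no point of colour `none`
    rw [← Finset.sum_fiberwise (R.filter (fun ρ => ¬ none ∈ cols ρ)) Js]
    unfold chi0w
    rw [Finset.mul_sum]
    apply Finset.sum_congr rfl
    intro J _
    rw [hvol (J.image some)]
    have hset : Φ.faces.filter (fun ρ => (ρ ⊆ cay φ univ ∧
        ρ.card = dimC φ + (cols ρ).card) ∧ cols ρ = J.image some) =
        (R.filter (fun ρ => ¬ none ∈ cols ρ)).filter (fun ρ => Js ρ = J) := by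
      ext ρ
      simp only [hR, Finset.mem_filter, hcols0 ρ J]
      tauto
    rw [hset]
    push_cast
    rw [Finset.mul_sum, Finset.sum_mul, Finset.mul_sum]
    apply Finset.sum_congr rfl
    intro ρ hρ
    simp only [hR, Finset.mem_filter] at hρ
    obtain ⟨⟨⟨hρf, hρc, hρcard⟩, hn⟩, hJ⟩ := hρ
    have hcol : cols ρ = J.image some := (hcols0 ρ J).2 ⟨hn, hJ⟩
    have hcc : (cols ρ).card = J.card := by
      rw [hcol, Finset.card_image_of_injective _ (Option.some_injective _)]
    have hcompl : univ.filter (fun j : Fin k => some j ∉ cols ρ) = Jᶜ := by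
      ext j
      rw [hcol]
      simp
    unfold gco
    rw [if_neg hn, hcompl, hρcard, hcc, pow_add]
    ring
  · rw [← Finset.sum_fiberwise (R.filter (fun ρ => none ∈ cols ρ)) Js]
    unfold chi1w
    rw [Finset.mul_sum, Finset.mul_sum]
    apply Finset.sum_congr rfl
    intro J _
    rw [hvol (insert none (J.image some))]
    have hset : Φ.faces.filter (fun ρ => (ρ ⊆ cay φ univ ∧
        ρ.card = dimC φ + (cols ρ).card) ∧ cols ρ = insert none (J.image some)) =
        (R.filter (fun ρ => none ∈ cols ρ)).filter (fun ρ => Js ρ = J) := by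
      ext ρ
      simp only [hR, Finset.mem_filter, hcols1 ρ J]
      tauto
    rw [hset]
    push_cast
    rw [Finset.mul_sum, Finset.sum_mul, Finset.mul_sum, Finset.mul_sum]
    apply Finset.sum_congr rfl
    intro ρ hρ
    simp only [hR, Finset.mem_filter] at hρ
    obtain ⟨⟨⟨hρf, hρc, hρcard⟩, hn⟩, hJ⟩ := hρ
    have hcol : cols ρ = insert none (J.image some) := (hcols1 ρ J).2 ⟨hn, hJ⟩
    have hcc : (cols ρ).card = J.card + 1 := by
      rw [hcol, Finset.card_insert_of_notMem (by simp),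
        Finset.card_image_of_injective _ (Option.some_injective _)]
    have hcompl : univ.filter (fun j : Fin k => some j ∉ cols ρ) = Jᶜ := by
      ext j
      rw [hcol]
      simp
    unfold gco
    rw [if_pos hn, hcompl, hρcard, hcc, pow_add, pow_add]
    ring

end Mono.CI.V5
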